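import Pool.Agent.VMX.StmtsB

/-!
# VMX squad (MP_e54c4c_gt), row ZAP: reachable points of the zoom limit are limits of
reachable points near the moving vertex
-/

set_option autoImplicit false

open Matrix Filter Topology

namespace Pool.Agent.VMX.H92

open Pool.Agent.PFS Pool.Agent.PFJ Pool.Agent.NBT

variable {n K : ℕ}

/-- reachable points can be rescaled -/
theorem rc_smul (aln : AlnStmt) {C : Set (V n)} {Γ Γ₀ : Subgroup (GL (Fin n) ℝ)} {p : Fin K}
    {J : Finset (Fin K)} {c : Fin K → ℕ} {F : (Fin K → V n) → Prop} (hS : SL C Γ Γ₀ p J c F)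
    {z : Fin K → V n} (hz : F z) {x : V n} (hx : Rc C F p J z x) {a : ℝ} (ha : 0 < a) :
    Rc C F p J z (a • x) := by
  have hC : CC C Γ := hS.cc
  have hFam : FAM C Γ Γ₀ F := hS.toFAM
  obtain ⟨h1, M, hM, h2⟩ := (aln n C Γ Γ₀ K p J c F hS z hz x).1 hx
  refine (aln n C Γ Γ₀ K p J c F hS z hz (a • x)).2 ⟨?_, a * M, mul_pos ha hM, ?_⟩
  · have h3 := hFam.scl _ h1 (Function.update (fun _ => (1 : ℝ)) p a) (by
      intro i
      by_cases hi : i = p
      · subst hi
        simpa using ha
      · simp [Function.update_of_ne hi])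
    have h4 : (fun i => (Function.update (fun _ => (1 : ℝ)) p a) i • (Function.update z p x) i)
        = Function.update z p (a • x) := by
      funext i
      by_cases hi : i = p
      · subst hi
        simp
      · simp [Function.update_of_ne hi]
    rw [h4] at h3
    exact h3
  · have h5 : (a * M) • fS z (insert p J) - a • x = a • (M • fS z (insert p J) - x) := by
      rw [smul_sub, smul_smul]
    rw [h5]
    exact hC.cl_smul h2 ha.le

theorem zap (zpt : ZptStmt) (fmc : FmcStmt) (aln : AlnStmt) (lft : LftStmt) :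
    ZapStmt := by
  intro n C Γ Γ₀ K p J c F hS z hz j hjp hjJ θ g s T L hg hZ X hX
  have hC : CC C Γ := hS.cc
  have hP : PCone C := hC.toPCone
  have hFam : FAM C Γ Γ₀ F := hS.toFAM
  have hpes : IsPES C Γ z := hFam.pes z hz
  have hcl : ∀ i, z i ∈ closure C := fun i => hpes.1.cl i
  have hpj : p ≠ j := hjp.symm
  obtain ⟨I, hI⟩ : ∃ I : Finset (Fin K), I = {p, j} := ⟨_, rfl⟩
  rw [← hI] at hZ hX
  have hpI : p ∈ I := by rw [hI]; simp
  have hjI : j ∈ I := by rw [hI]; simp
  have hIne : I.Nonempty := ⟨p, hpI⟩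
  have hIc : Iᶜ.Nonempty := by
    rw [Finset.nonempty_iff_ne_empty]
    intro h0
    have h1 : (Iᶜ).card = 0 := by rw [h0]; simp
    rw [Finset.card_compl, hI, Finset.card_pair hpj, Fintype.card_fin] at h1
    have := hS.three
    omega
  have hu : fS z I = z p + z j := by rw [hI]; exact fS_pair z hpj
  have hRcl : fS z Iᶜ ∈ closure C := fS_cl hP hcl Iᶜ
  obtain ⟨R, hR⟩ : ∃ R, R = fS z Iᶜ := ⟨_, rfl⟩
  -- the limit simplex
  obtain ⟨hWpes, hWlim, hWI, hWIc, -⟩ := zpt n C Γ hC K z hpes I hIne hIc θ g s T L hZ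
  obtain ⟨W, hWdef⟩ : ∃ W, W = zW z I T L := ⟨_, rfl⟩
  rw [← hWdef] at hX hWpes hWlim hWI hWIc
  obtain ⟨r, hr⟩ : ∃ r : ℕ → Fin K → ℝ, ∀ k i, r k i = if i ∈ I then Real.exp (θ k) else 1 :=
    ⟨_, fun _ _ => rfl⟩
  have hrpos : ∀ k i, 0 < r k i := by
    intro k i
    rw [hr]
    split_ifs
    exacts [Real.exp_pos _, one_pos]
  have hlimW : ∀ i, Tendsto (fun k => s k • act (g k) (r k i • z i)) atTop (𝓝 (W i)) := by
    intro i
    refine (hWlim i).congr fun k => ?_
    rw [hr]
  have hFx : ∀ k, F (fun i => s k • act (g k) (r k i • z i)) := by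
    intro k
    have h1 := hFam.scl z hz (r k) (hrpos k)
    have h2 := hFam.inv _ h1 (g k) (hg k)
    exact hFam.scl _ h2 (fun _ => s k) (fun _ => hZ.pos k)
  have hsumW : ∑ i, W i ∈ C := by
    rw [← fS_add_compl W I, hWI, hWIc]
    exact hZ.sum
  have hFW : F W := hFam.cld _ W hFx hlimW hsumW
  -- lifting
  obtain ⟨y, hy, hylim⟩ := lft n C Γ Γ₀ K p J c F hS (fun _ => z) W r g s (fun _ => hz) hFW
    hrpos hg hZ.pos hlimW X hX
  have hrp : ∀ k, r k p = Real.exp (θ k) := by intro k; rw [hr, if_pos hpI]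
  have hrj : ∀ k, r k j = Real.exp (θ k) := by intro k; rw [hr, if_pos hjI]
  have hyaln : ∀ k, F (Function.update z p (y k)) ∧ Dm C (y k) (fS z (insert p J)) :=
    fun k => (aln n C Γ Γ₀ K p J c F hS z hz (y k)).1 (hy k)
  have hycl : ∀ k, y k ∈ closure C := by
    intro k
    have h1 := (hFam.pes _ (hyaln k).1).1.cl p
    rwa [Function.update_self] at h1
  have hypl : Tendsto (fun k => s k • act (g k) (Real.exp (θ k) • y k)) atTop (𝓝 X) := by
    refine hylim.congr fun k => ?_
    rw [hrp]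
  have hWp : Tendsto (fun k => s k • act (g k) (Real.exp (θ k) • z p)) atTop (𝓝 (W p)) := by
    refine (hlimW p).congr fun k => ?_
    rw [hrp]
  have hWj : Tendsto (fun k => s k • act (g k) (Real.exp (θ k) • z j)) atTop (𝓝 (W j)) := by
    refine (hlimW j).congr fun k => ?_
    rw [hrj]
  have hTR : Tendsto (fun k => s k • act (g k) R) atTop (𝓝 (fS W Iᶜ)) := by
    rw [hWIc, ← hR]
    exact hZ.limT (fun _ => R) R tendsto_const_nhds
  have htr : ∀ (v : ℕ → V n) (v0 : V n), v0 ∈ C →
      Tendsto (fun k => s k • act (g k) (v k)) atTop (𝓝 v0) → ∀ᶠ k in atTop, v k ∈ C := by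
    intro v v0 hv0 hv
    filter_upwards [hv.eventually (hP.isOpen.mem_nhds hv0)] with k hk
    exact (hC.sact_mem_iff (hZ.mem k) (hZ.pos k)).1 hk
  obtain ⟨δ, hδ⟩ : ∃ δ : ℕ → ℝ, ∀ k, δ k = Real.exp (-(θ k)) := ⟨_, fun _ => rfl⟩
  have hδe : ∀ k, δ k * Real.exp (θ k) = 1 := by
    intro k
    rw [hδ, ← Real.exp_add]
    simp
  have hδpos : ∀ k, 0 < δ k := by intro k; rw [hδ]; exact Real.exp_pos _
  have hδ0 : Tendsto δ atTop (𝓝 0) := by
    have h1 := Real.tendsto_exp_neg_atTop_nhds_zero.comp hZ.inf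
    refine h1.congr fun k => ?_
    rw [hδ]
    rfl
  -- upper bound for `y`
  obtain ⟨M, hM, hMX⟩ := hP.absorb hsumW X
  have hup : ∀ᶠ k in atTop, M • (z p + z j) + (M * δ k) • R - y k ∈ closure C := by
    have h1 : Tendsto (fun k => s k • act (g k)
        (M • (Real.exp (θ k) • z p + Real.exp (θ k) • z j + R) - Real.exp (θ k) • y k)) atTop
        (𝓝 (M • (W p + W j + fS W Iᶜ) - X)) := by
      refine ((((hWp.add hWj).add hTR).const_smul M).sub hypl).congr fun k => ?_
      rw [CC.act_sub, CC.act_smul (g k) M, CC.act_add, CC.act_add]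
      module
    have h2 : M • (W p + W j + fS W Iᶜ) - X ∈ C := by
      have e : W p + W j + fS W Iᶜ = ∑ i, W i := by
        rw [← fS_add_compl W I]
        congr 1
        rw [hI]
        exact (fS_pair W hpj).symm
      rw [e]
      exact hMX
    filter_upwards [htr _ _ h2 h1] with k hk
    have h3 := hP.cl_smul (subset_closure hk) (hδpos k).le
    have e : δ k • (M • (Real.exp (θ k) • z p + Real.exp (θ k) • z j + R) -
        Real.exp (θ k) • y k) = (δ k * Real.exp (θ k)) • (M • (z p + z j)) + (M * δ k) • R -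
          (δ k * Real.exp (θ k)) • y k := by module
    rw [e, hδe, one_smul, one_smul] at h3
    exact h3
  obtain ⟨B, hB, hnorm⟩ := hP.normal
  have hvlim : Tendsto (fun k => M • (z p + z j) + (M * δ k) • R) atTop
      (𝓝 (M • (z p + z j))) := by
    have h1 : Tendsto (fun k => M • (z p + z j) + (M * δ k) • R) atTop
      (𝓝 (M • (z p + z j) + (M * 0) • R)) :=
      tendsto_const_nhds.add ((hδ0.const_mul M).smul_const R)
    rwa [mul_zero, zero_smul, add_zero] at h1
  have hbd : ∀ᶠ k in atTop, y k ∈ Metric.closedBall (0 : V n) (B * (‖M • (z p + z j)‖ + 1)) := by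
    have h1 := hvlim.norm.eventually (gt_mem_nhds (lt_add_one ‖M • (z p + z j)‖))
    filter_upwards [hup, h1] with k hk1 hk2
    rw [Metric.mem_closedBall, dist_zero_right]
    exact (hnorm _ _ (hycl k) hk1).trans (mul_le_mul_of_nonneg_left hk2.le hB.le)
  obtain ⟨y0, -, φ, hφ, hyφ⟩ := tendsto_subseq_of_frequently_bounded
    Metric.isBounded_closedBall hbd.frequently
  have hφt := hφ.tendsto_atTop
  have hyφ' : Tendsto (fun k => y (φ k)) atTop (𝓝 y0) := hyφ
  have hy0cl : y0 ∈ closure C :=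
    isClosed_closure.mem_of_tendsto hyφ' (Eventually.of_forall fun k => hycl _)
  have hup0 : M • (z p + z j) - y0 ∈ closure C := by
    have h1 : Tendsto (fun k => M • (z p + z j) + (M * δ (φ k)) • R - y (φ k)) atTop
        (𝓝 (M • (z p + z j) - y0)) := (hvlim.comp hφt).sub hyφ'
    exact isClosed_closure.mem_of_tendsto h1 (hφt.eventually hup)
  -- the point is in the face of the reachable set
  have hI'cl : fS z (insert p J) ∈ closure C := fS_cl hP hcl _
  obtain ⟨hunt, hsp, -⟩ := fcs n C hP (fS z (insert p J)) hI'cl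
  have hy0sp : y0 ∈ Submodule.span ℝ (Face C (fS z (insert p J))) := by
    have hclosed : IsClosed (Submodule.span ℝ (Face C (fS z (insert p J))) : Set (V n)) :=
      Submodule.closed_of_finiteDimensional _
    refine hclosed.mem_of_tendsto hyφ' (Eventually.of_forall fun k => ?_)
    obtain ⟨M', -, h1⟩ := (hyaln (φ k)).2
    exact hsp _ (hycl _) M' h1
  obtain ⟨M3, hM3, hup3⟩ := hunt.2.2 y0 hy0sp
  -- lower bound
  have hFWX : F (Function.update W p X) := ((aln n C Γ Γ₀ K p J c F hS W hFW X).1 hX).1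
  have hsumWX : X + W j + fS W Iᶜ ∈ C := by
    have h1 := (hFam.pes _ hFWX).1.pos (fun _ => 1) (fun _ => one_pos)
    have e : ∑ i, (1 : ℝ) • Function.update W p X i = X + W j + fS W Iᶜ := by
      simp only [one_smul]
      rw [← fS_add_compl (Function.update W p X) I, fS_update W p X (I := Iᶜ) (by simpa using hpI)]
      congr 1
      rw [hI, fS_pair _ hpj, Function.update_self, Function.update_of_ne hjp]
    rwa [e] at h1
  obtain ⟨M2, hM2, hM2X⟩ := hP.absorb hsumWX (W p)
  have hlow : ∀ᶠ k in atTop, M2 • (y k + z j + δ k • R) - z p ∈ closure C := by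
    have h1 : Tendsto (fun k => s k • act (g k)
        (M2 • (Real.exp (θ k) • y k + Real.exp (θ k) • z j + R) - Real.exp (θ k) • z p)) atTop
        (𝓝 (M2 • (X + W j + fS W Iᶜ) - W p)) := by
      refine ((((hypl.add hWj).add hTR).const_smul M2).sub hWp).congr fun k => ?_
      rw [CC.act_sub, CC.act_smul (g k) M2, CC.act_add, CC.act_add]
      module
    filter_upwards [htr _ _ hM2X h1] with k hk
    have h3 := hP.cl_smul (subset_closure hk) (hδpos k).le
    have e : δ k • (M2 • (Real.exp (θ k) • y k + Real.exp (θ k) • z j + R) -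
        Real.exp (θ k) • z p) = (δ k * Real.exp (θ k)) • (M2 • (y k + z j)) +
          (M2 * δ k) • R - (δ k * Real.exp (θ k)) • z p := by module
    rw [e, hδe, one_smul, one_smul] at h3
    have e2 : M2 • (y k + z j + δ k • R) - z p = M2 • (y k + z j) + (M2 * δ k) • R - z p := by
      module
    rw [e2]
    exact h3
  have hlow0 : M2 • (y0 + z j) - z p ∈ closure C := by
    have h1 : Tendsto (fun k => M2 • (y (φ k) + z j + δ (φ k) • R) - z p) atTop
        (𝓝 (M2 • (y0 + z j + (0 : ℝ) • R) - z p)) :=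
      (((hyφ'.add tendsto_const_nhds).add ((hδ0.comp hφt).smul_const R)).const_smul M2).sub
        tendsto_const_nhds
    rw [zero_smul, add_zero] at h1
    exact isClosed_closure.mem_of_tendsto h1 (hφt.eventually hlow)
  -- consequences of FMC
  obtain ⟨f1, -, -, -, -, -, f7⟩ := fmc n C Γ hC K hS.three hS.maxc z p hpes
  have hnot : ∀ l : Fin K, fS z {l}ᶜ ∉ C := by
    intro l
    refine (f7 {l}ᶜ ?_ ?_).2
    · rw [Finset.nonempty_iff_ne_empty]
      intro h0
      have h1 : (({l} : Finset (Fin K))ᶜ).card = 0 := by rw [h0]; simp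
      rw [Finset.card_compl, Finset.card_singleton, Fintype.card_fin] at h1
      have := hS.three
      omega
    · rw [compl_compl]
      exact Finset.singleton_nonempty l
  have key : ∀ (l : Fin K) (A : Finset (Fin K)) (M : ℝ) (v : V n), 0 < M → l ∉ A →
      M • fS z A - v ∈ closure C → v + fS z {l}ᶜ ∉ C := by
    intro l A M v hM hlA hMy hmem
    have hsub : A ⊆ {l}ᶜ := by
      intro i hi
      rw [Finset.mem_compl, Finset.mem_singleton]
      rintro rfl
      exact hlA hi
    have h1 := fS_add_sdiff z hsub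
    have h2 : fS z ({l}ᶜ \ A) ∈ closure C := fS_cl hP hcl _
    have h3 : (M + 1) • fS z {l}ᶜ ∈ C := by
      have e : (M + 1) • fS z {l}ᶜ =
          (v + fS z {l}ᶜ) + ((M • fS z A - v) + M • fS z ({l}ᶜ \ A)) := by
        have e1 : (M + 1) • fS z {l}ᶜ = M • fS z {l}ᶜ + fS z {l}ᶜ := by module
        rw [e1]
        have e2 : M • fS z {l}ᶜ = M • fS z A + M • fS z ({l}ᶜ \ A) := by
          rw [← smul_add, h1]
        rw [e2]
        abel
      rw [e]
      exact hP.add_cl hmem (hP.cl_add hMy (hP.cl_smul h2 hM.le))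
    exact hnot l ((hP.smul_iff (by linarith)).1 h3)
  have hy0ne : y0 ≠ 0 := by
    intro h0
    rw [h0, zero_add] at hlow0
    have hsum : ∑ i, z i ∈ C := by
      have h1 := hpes.1.pos (fun _ => 1) (fun _ => one_pos)
      simpa using h1
    have h2 : (M2 • z j - z p) + ∑ i, z i ∈ C := hP.cl_add' hlow0 hsum
    have h3 : M2 • z j + fS z {p}ᶜ ∈ C := by
      rw [← fS_add_compl z {p}, fS_single] at h2
      have e : M2 • z j - z p + (z p + fS z {p}ᶜ) = M2 • z j + fS z {p}ᶜ := by abel
      rwa [e] at h2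
    refine key p {j} M2 (M2 • z j) hM2 (by simpa using hpj) ?_ h3
    rw [fS_single, sub_self]
    exact hP.zero_cl
  have hjI' : j ∉ insert p J := by
    rw [Finset.mem_insert]
    rintro (h1 | h1)
    exacts [hjp h1, hjJ h1]
  have hlam : y0 ∈ LamC C Γ := by
    have h1 := (f7 (insert p J) ⟨p, Finset.mem_insert_self _ _⟩
      ⟨j, by rw [Finset.mem_compl]; exact hjI'⟩).1
    have h2 := hC.hul.lamSmul _ h1 M3 hM3
    exact H37.flmF n C Γ hC _ h2 y0 hy0cl hy0ne hup3
  obtain ⟨a, ha, hya⟩ := f1 p y0 hlam (by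
    intro l hlp
    by_cases hlj : l = j
    · rw [hlj]
      exact key j (insert p J) M3 y0 hM3 hjI' hup3
    · refine key l I M y0 hM ?_ ?_
      · rw [hI]
        simp [hlp, hlj]
      · rw [hu]
        exact hup0)
  have hai : 0 < a⁻¹ := inv_pos.2 ha
  refine ⟨φ, fun k => a⁻¹ • y (φ k), a⁻¹, hφ, hai,
    fun k => rc_smul aln hS hz (hy _) hai, ?_, ?_⟩
  · have h1 := hyφ'.const_smul a⁻¹
    rwa [hya, smul_smul, inv_mul_cancel₀ ha.ne', one_smul] at h1
  · refine ((hypl.comp hφt).const_smul a⁻¹).congr fun k => ?_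
    show a⁻¹ • s (φ k) • act (g (φ k)) (Real.exp (θ (φ k)) • y (φ k)) = _
    rw [CC.act_smul, CC.act_smul, smul_smul, smul_smul, smul_smul]
    congr 1
    ring

end Pool.Agent.VMX.H92
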